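import Pool.Agent.H53.GR.Targets

/-!
# Board gar_modules, module NR2: the theorem of Nešetřil and Rödl for one structure
-/

set_option autoImplicit false

namespace Pool.Agent.H3.GR

open Pool.Agent.H68.BP Pool.Agent.H58.SF Pool.Agent.H53.GC Pool.Agent.H53.NR Pool.Agent.H58.GR
open Pool.Agent.H53.GR

/-- from the system to the order -/
theorem arrow_of {τ : Sig} {Q P κ : Type} [LinearOrder Q] {a b n : ℕ} {𝔸 : Str τ (Fin a)}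
    {𝕏 : Str τ (Fin b)} {π : P → Q} {𝕌 : Str τ P} (e : P ≃ Fin n)
    (h1 : ∀ x y, π x < π y → e x < e y)
    (h : ∀ χ : (Fin a → P) → κ, ∃ φ : Fin b → P, StrictMono (fun i => π (φ i)) ∧
        pull 𝕌 φ = 𝕏 ∧ ∀ f f' : Fin a → Fin b, OCopy 𝔸 𝕏 f → OCopy 𝔸 𝕏 f' →
          χ (fun i => φ (f i)) = χ (fun i => φ (f' i))) (χ : (Fin a → Fin n) → κ) :
    ∃ β : Fin b → Fin n, OCopy 𝕏 (pull 𝕌 e.symm) β ∧ ∀ f f' : Fin a → Fin b,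
      OCopy 𝔸 𝕏 f → OCopy 𝔸 𝕏 f' → χ (fun i => β (f i)) = χ (fun i => β (f' i)) := by
  obtain ⟨φ, g1, g2, g3⟩ := h (fun g => χ (fun i => e (g i)))
  refine ⟨fun i => e (φ i), ⟨fun i j hij => h1 _ _ (g1 hij), ?_⟩, fun f f' hf hf' =>
    g3 f f' hf hf'⟩
  rw [← g2]
  funext l z
  unfold pull
  simp only [Equiv.symm_apply_apply]

/-- The theorem of Nešetřil and Rödl for one structure. -/
theorem pf_NR2 (h1 : Pool.Agent.H53.NR.T_RSS) (h2 : Pool.Agent.H53.GR.T_PCT)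
    (h3 : Pool.Agent.H53.NR.T_LIN) : Pool.Agent.H53.GR.T_NR2 := by
  intro τ V κ _ _ 𝔹 M a b 𝔸 𝕏 har hB
  obtain ⟨p, hp⟩ := h1 a b κ
  obtain ⟨P1, hP1, π1, 𝕌1, hr1, -⟩ := h2 τ V (Fin p) κ 𝔹 M a b 𝔸 𝕏
    {β | StrictMono β} har (fun β hβ => hβ) (fun χ => by
      obtain ⟨β, hβ, hβ2⟩ := hp χ
      exact ⟨β, hβ, fun f f' hf hf' => hβ2 f f' hf.1 hf'.1⟩)
  obtain ⟨n1, e1, -, -, k1, -, -, -⟩ := h3 Unit (Fin p) P1 (fun _ _ => ()) π1 (fun _ => ())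
    (fun _ _ => ())
  obtain ⟨P2, hP2, π2, 𝕌2, hr2, hok⟩ := h2 τ V (Fin n1) κ 𝔹 M a b 𝔸 𝕏
    {β | OCopy 𝕏 (pull 𝕌1 e1.symm) β} har (fun β hβ => hβ.1) (fun χ => by
      obtain ⟨β, hβ, hβ2⟩ := arrow_of e1 k1 hr1 χ
      exact ⟨β, hβ, hβ2⟩)
  have hsys := hok (pull 𝕌1 e1.symm) (fun β hβ => hβ.2.symm) hB
  obtain ⟨n, e, -, -, l1, -, -, -⟩ := h3 Unit (Fin n1) P2 (fun _ _ => ()) π2 (fun _ => ())
    (fun _ _ => ())
  refine ⟨n, pull 𝕌2 e.symm, ?_, fun χ => arrow_of e l1 hr2 χ⟩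
  intro m s hm hs hirr
  exact hsys.real m (fun i => e.symm (s i)) hm (fun i j hij => hs (e.symm.injective hij)) hirr

end Pool.Agent.H3.GR
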