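import Pool.Agent.H53.GR.Targets
import Pool.Agent.H74.GC.RED

/-!
# Board gar_modules, module RED: the reduction to the finite template is computable in polynomial
time
-/

set_option autoImplicit false

namespace Pool.Agent.H3.GR.RED

open Pool.Agent.H1.NP Pool.Agent.H1.PNP
open Pool.Agent.H68.OQP hiding eN eE eB
open Pool.Agent.H68.NPH hiding prs eN
open Function
open Pool.Agent.H68.BP (ph cV cC eE eN eZ code code_eq CSP csp_code csp_true code_of_cV ph_vals
  strOf polyOn_numsR lgF Sig Str IsHom)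
open Pool.Agent.H68.BT (Wg Cv Corr rowG rowG_length rowG_map rowG_mem rowG_getD csp_nil)
open Pool.Agent.H53.GC (arP relP Sym sigOf strOn)
open Pool.Agent.H53.GR (Ps Dm tmpl pls spl Setp T_RE1 T_RED)
open Pool.Agent.H74.GC (nest mem_nest cO tv_cO eB)

variable {l env : List ℕ}

/-! ### The signature of the template -/

/-- The signature of the template. -/
@[reducible] def rT (σ : Sig) (M : ℕ) : Pool.Agent.H69.BP.Sig where
  Sym := Sym σ M
  Ar := fun s => Ps M (arP σ M s.1)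
  finSym := inferInstance
  finAr := fun _ => inferInstance

/-- The numbering. -/
noncomputable def cvT (σ : Sig) (M : ℕ) :
    Cv (rT σ M) (sigOf (Sym σ M) (fun s => Ps M (arP σ M s.1))) where
  e := Finite.equivFin (Sym σ M)
  a := fun s => (Finite.equivFin (Ps M (arP σ M s.1))).trans (finCongr (by
    change _ = Nat.card (Ps M (arP σ M ((Finite.equivFin (Sym σ M)).symm
      (Finite.equivFin (Sym σ M) s)).1))
    rw [Equiv.symm_apply_apply]))

theorem strOn_corr {σ : Sig} {M : ℕ} {Y : Type}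
    (R : (s : Sym σ M) → (Ps M (arP σ M s.1) → Y) → Prop) :
    Corr (cvT σ M) (fun s x => R s x) (strOn R) := by
  intro s x
  have key : ∀ (s' : Sym σ M) (h : s' = s)
      (hc : Nat.card (Ps M (arP σ M s.1)) =
        Nat.card (Ps M (arP σ M s'.1)))
      (x : Fin (Nat.card (Ps M (arP σ M s'.1))) → Y),
      R s' (fun p => x (Finite.equivFin (Ps M (arP σ M s'.1)) p)) ↔
      R s (x ∘ ((Finite.equivFin (Ps M (arP σ M s.1))).trans
        (finCongr hc))) := by
    rintro s' rfl hc x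
    exact Iff.rfl
  exact key ((Finite.equivFin (Sym σ M)).symm (Finite.equivFin (Sym σ M) s))
    (Equiv.symm_apply_apply _ _) _ x

/-! ### The rows -/

/-- a power of an expression -/
def powE (e : Ex) : ℕ → Ex
  | 0 => .con 1
  | k + 1 => .mul (powE e k) e

theorem powE_val (e : Ex) : ∀ k, (powE e k).val l env = e.val l env ^ k
  | 0 => rfl
  | k + 1 => by
    rw [pow_succ, ← powE_val e k]
    rfl

/-- the sum of a list of expressions -/
def sumE : List Ex → Ex
  | [] => .con 0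
  | e :: L => .add e (sumE L)

theorem sumE_val : ∀ L : List Ex, (sumE L).val l env = (L.map (fun e => e.val l env)).sum
  | [] => rfl
  | e :: L => by
    rw [List.map_cons, List.sum_cons, ← sumE_val L]
    rfl

/-- an entry of a row -/
def entN (N M : ℕ) {m : ℕ} (y : Fin m → ℕ) (p : Ps M m) : ℕ :=
  p.1 + M * ∑ i : Fin (p.1 + 1), y (p.2 i) * N ^ (i : ℕ)

/-- an entry of a row, as an expression -/
def entE (M : ℕ) {m : ℕ} (Y : Fin m → Ex) (p : Ps M m) : Ex :=
  .add (.con p.1) (.mul (.con M)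
    (sumE (List.ofFn (fun i : Fin (p.1 + 1) => Ex.mul (Y (p.2 i)) (powE (eB M) i)))))

theorem ent_val {m n M : ℕ} (hn : ∀ env, (eN).val l env = n) {Y : Fin m → Ex} {y : Fin m → ℕ}
    (hv : ∀ a, (Y a).val l env = y a) (p : Ps M m) :
    (entE M Y p).val l env = entN (n + M) M y p := by
  unfold entE entN
  have h1 : (eB M).val l env = n + M := by
    simp only [eB, Ex.val, hn]
  simp only [Ex.val, sumE_val, List.map_ofFn, List.sum_ofFn, Function.comp_apply, powE_val, h1, hv]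

/-- the number of a position -/
def cd {N M : ℕ} (p : Σ j : Fin M, (Fin (j + 1) → Fin N)) : Fin (M * N ^ M) :=
  ⟨p.1 + M * (finFunctionFinEquiv p.2 : ℕ), by
    obtain ⟨j, z⟩ := p
    have h1 : (finFunctionFinEquiv z : ℕ) < N ^ ((j : ℕ) + 1) := (finFunctionFinEquiv z).2
    have hN : 0 < N := lt_of_le_of_lt (Nat.zero_le _) (z 0).2
    have h2 : N ^ ((j : ℕ) + 1) ≤ N ^ M := Nat.pow_le_pow_right hN j.2
    have h3 : M * ((finFunctionFinEquiv z : ℕ) + 1) ≤ M * N ^ M :=
      Nat.mul_le_mul_left _ (lt_of_lt_of_le h1 h2)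
    rw [Nat.mul_add, Nat.mul_one] at h3
    have h4 := j.2
    show (j : ℕ) + M * (finFunctionFinEquiv z : ℕ) < M * N ^ M
    omega⟩

theorem cd_inj {N M : ℕ} : Injective (cd : (Σ j : Fin M, (Fin (j + 1) → Fin N)) → _) := by
  rintro ⟨j, z⟩ ⟨j', z'⟩ h
  have h1 : (j : ℕ) + M * (finFunctionFinEquiv z : ℕ) =
      (j' : ℕ) + M * (finFunctionFinEquiv z' : ℕ) := congrArg Fin.val h
  have hM : 0 < M := lt_of_le_of_lt (Nat.zero_le _) j.2
  have h2 : (j : ℕ) = j' := by
    have h3 := congrArg (· % M) h1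
    simp only [Nat.add_mul_mod_self_left, Nat.mod_eq_of_lt j.2, Nat.mod_eq_of_lt j'.2] at h3
    exact h3
  obtain rfl : j = j' := Fin.ext h2
  have h3 : (finFunctionFinEquiv z : ℕ) = (finFunctionFinEquiv z' : ℕ) :=
    Nat.eq_of_mul_eq_mul_left hM (Nat.add_left_cancel h1)
  rw [finFunctionFinEquiv.injective (Fin.ext h3)]

theorem entN_eq {N M m : ℕ} (y : Fin m → Fin N) (p : Ps M m) :
    entN N M (fun a => (y a : ℕ)) p = (cd (M := M) ⟨p.1, fun i => y (p.2 i)⟩ : ℕ) := by
  unfold entN cd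
  simp only [finFunctionFinEquiv_apply]

/-! ### The program -/

section prog

variable {σ : Sig} {M : ℕ}

/-- the rows -/
noncomputable def pA (σ : Sig) (M : ℕ) : Wg :=
  .seq (nest (eB M) M (Wg.many (Finset.univ : Finset (Fin M → Fin M)).toList (fun t =>
      .cond (cO (fun a : Fin M => Ex.var a) t)
        (.row (rowG (cvT σ M) Ex.con (⟨none, t⟩ : Sym σ M)
          (entE M (fun a : Fin M => Ex.var a)))))))
    (.loop eZ (Wg.many (List.finRange σ.m) (fun l =>
      Wg.many (Finset.univ : Finset (Fin (σ.ar l) → Fin (σ.ar l))).toList (fun t =>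
        .cond ((cC σ l).and (cO (fun a : Fin (σ.ar l) => eE σ (a + 1)) t))
          (.row (rowG (cvT σ M) Ex.con (⟨some l, t⟩ : Sym σ M)
            (entE M (fun a : Fin (σ.ar l) => eE σ (a + 1)))))))))

/-- the whole program -/
noncomputable def pT (σ : Sig) (M : ℕ) : Lg :=
  cV.ite (.seq (.el (.mul (.con M) (powE (eB M) M))) (pA σ M).toLg) .nil

/-- the output -/
noncomputable def red (σ : Sig) (M : ℕ) (x : List Bool) : List ℕ :=
  (pT σ M).out (ph (σ.width + 1) x) []

theorem polyOn_red : PolyOn (fun w : List Bool => w) unary (red σ M) :=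
  ((polyOn_numsR.comp (polyOn_lg (lgF (σ.width + 1)))).comp (polyOn_lg (pT σ M))).congr
    (fun q => q) (fun _ => rfl) (fun _ => rfl)

theorem red_bad {x : List Bool} (h : ¬ cV.tv (ph (σ.width + 1) x) []) : red σ M x = [] := by
  unfold red pT
  rw [Cd.ite_out, if_neg h]
  rfl

/-- the row of a tuple -/
noncomputable def rw' (σ : Sig) (M n : ℕ) (s : Option (Fin σ.m))
    (y : Fin (arP σ M s) → Fin (n + M)) (t : Fin (arP σ M s) → Fin (arP σ M s)) : List ℕ :=
  rowG (cvT σ M) id (⟨s, t⟩ : Sym σ M) (entN (n + M) M (fun a => (y a : ℕ)))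

variable {n : ℕ} {L : List (List ℕ)} (hL : ∀ c ∈ L, c.length = σ.width + 1)

include hL

theorem mem_pA {A : List ℕ} (hA : ph (σ.width + 1) (code n L) = A) (c : List ℕ) :
    c ∈ (pA σ M).out A [] ↔ ∃ (s : Option (Fin σ.m)) (y : Fin (arP σ M s) → Fin (n + M))
      (t : Fin (arP σ M s) → Fin (arP σ M s)), relP (pls (strOf σ n L) M) M s y ∧
      (∀ a b, y a ≤ y b ↔ t a ≤ t b) ∧ c = rw' σ M n s y t := by
  obtain ⟨M', hM, h0, h1, h2, h3, h4⟩ := ph_vals (n := n) hL
  rw [hA] at hM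
  subst hM
  have hw : ∀ (l : Fin σ.m) (p : Fin (σ.ar l)), (p : ℕ) + 1 < σ.width + 1 := by
    intro l p
    have : σ.ar l ≤ σ.width := Finset.le_sup (f := σ.ar) (Finset.mem_univ l)
    have := p.2
    omega
  have hn : ∀ env, (eN).val A env = n := fun env => h2
  have hB : ∀ env, (eB M).val A env = n + M := fun env => by
    simp only [eB, Ex.val, hn]
  unfold pA
  rw [Wg.mem_seq, mem_nest hB, Wg.mem_loop]
  constructor
  · rintro (⟨ys, e1, e2, h⟩ | ⟨j, hj, h⟩)
    · rw [Wg.mem_many] at h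
      obtain ⟨t, -, h⟩ := h
      rw [Wg.mem_cond, Wg.mem_row, rowG_map, tv_cO] at h
      obtain ⟨e3, h⟩ := h
      have hv : ∀ a : Fin M, (Ex.var a).val A (ys ++ []) = ys.getD a 0 := fun a => by
        simp only [Ex.val, List.append_nil]
      simp only [hv] at e3
      refine ⟨none, fun a => ⟨ys.getD a 0, ?_⟩, t, trivial, e3, ?_⟩
      · have ha : (a : ℕ) < ys.length := by
          rw [e1]
          exact a.2
        rw [List.getD_eq_getElem?_getD, List.getElem?_eq_getElem ha]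
        exact e2 _ (List.getElem_mem ha)
      · rw [h]
        unfold rw'
        congr 1
        funext p
        exact ent_val hn hv p
    · rw [Wg.mem_many] at h
      obtain ⟨l, -, h⟩ := h
      rw [Wg.mem_many] at h
      obtain ⟨t, -, h⟩ := h
      rw [Wg.mem_cond, Wg.mem_row, rowG_map, tv_and, tv_cO] at h
      obtain ⟨⟨hc, ho⟩, h⟩ := h
      simp only [cC, tv_and, tv_le, tv_eq, tv_all, tv_lt, eE, eZ, eN, Ex.val,
        List.getD_cons_zero, h1, h2] at hc
      obtain ⟨⟨c1, c2⟩, c3⟩ := hc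
      have hj' : j < L.length := by
        have : (j + 1) * (σ.width + 1) ≤ L.length * (σ.width + 1) := by
          rw [Nat.mul_comm (j + 1)]
          omega
        exact Nat.lt_of_succ_le (Nat.le_of_mul_le_mul_right this (by omega))
      rw [h4 j hj' 0 (by omega)] at c2
      have hv : ∀ p : Fin (σ.ar l), (eE σ (p + 1)).val A [j] = (L[j]).getD (p + 1) 0 := by
        intro p
        simp only [eE, Ex.val, List.getD_cons_zero]
        exact h4 j hj' _ (hw l p)
      have c4 : ∀ p : Fin (σ.ar l), (L[j]).getD (p + 1) 0 < n := by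
        intro p
        have := c3 p (List.mem_finRange p)
        rwa [h4 j hj' _ (hw l p)] at this
      simp only [hv] at ho
      refine ⟨some l, fun a => Fin.castAdd M ⟨_, c4 a⟩, t,
        ⟨fun p => ⟨_, c4 p⟩, ⟨L[j], List.getElem_mem hj', c2, fun i => rfl⟩, rfl⟩, ho, ?_⟩
      rw [h]
      unfold rw'
      congr 1
      funext p
      exact ent_val hn hv p
  · rintro ⟨s, y, t, hr, ho, rfl⟩
    cases s with
    | none =>
      left
      refine ⟨List.ofFn (fun a : Fin M => ((y a : Fin (n + M)) : ℕ)), by simp, ?_, ?_⟩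
      · intro v hv
        rw [List.mem_ofFn] at hv
        obtain ⟨a, rfl⟩ := hv
        exact (y a).2
      · rw [Wg.mem_many]
        refine ⟨t, Finset.mem_toList.2 (Finset.mem_univ _), ?_⟩
        rw [Wg.mem_cond, Wg.mem_row, rowG_map]
        have hv : ∀ a : Fin M, (Ex.var a).val A
            (List.ofFn (fun a : Fin M => ((y a : Fin (n + M)) : ℕ)) ++ []) = y a := fun a => by
          simp only [Ex.val, List.append_nil]
          rw [List.getD_eq_getElem?_getD, List.getElem?_ofFn, dif_pos a.2]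
          rfl
        refine ⟨tv_cO.2 fun a b => ?_, ?_⟩
        · rw [hv, hv]
          exact ho a b
        · unfold rw'
          congr 1
          funext p
          exact (ent_val hn hv p).symm
    | some l =>
      right
      obtain ⟨u, ⟨c', hc', c1, c2⟩, hy⟩ := hr
      obtain ⟨j, hj, rfl⟩ := List.getElem_of_mem hc'
      refine ⟨j, ?_, ?_⟩
      · simp only [eZ, Ex.val, h1]
        have : L.length ≤ L.length * (σ.width + 1) := Nat.le_mul_of_pos_right _ (by omega)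
        omega
      · have hv : ∀ p : Fin (σ.ar l), (eE σ (p + 1)).val A [j] = y p := by
          intro p
          simp only [eE, Ex.val, List.getD_cons_zero]
          rw [h4 j hj _ (hw l p), c2 p, hy]
          rfl
        rw [Wg.mem_many]
        refine ⟨l, List.mem_finRange l, ?_⟩
        rw [Wg.mem_many]
        refine ⟨t, Finset.mem_toList.2 (Finset.mem_univ _), ?_⟩
        rw [Wg.mem_cond, Wg.mem_row, rowG_map, tv_and]
        refine ⟨⟨?_, tv_cO.2 fun a b => ?_⟩, ?_⟩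
        · simp only [cC, tv_and, tv_le, tv_eq, tv_all, tv_lt, eE, eZ, eN, Ex.val,
            List.getD_cons_zero, h1, h2]
          refine ⟨⟨?_, ?_⟩, ?_⟩
          · have : (j + 1) * (σ.width + 1) ≤ L.length * (σ.width + 1) :=
              Nat.mul_le_mul_right _ hj
            rw [Nat.mul_comm (j + 1)] at this
            omega
          · rw [h4 j hj 0 (by omega)]
            exact c1
          · intro p _
            rw [h4 j hj _ (hw l p), c2 p]
            exact (u p).2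
        · rw [hv, hv]
          exact ho a b
        · unfold rw'
          congr 1
          funext p
          exact (ent_val hn hv p).symm

theorem red_code : ∃ L' : List (List ℕ), (∀ c ∈ L', c.length =
      (sigOf (Sym σ M) (fun s => Ps M (arP σ M s.1))).width + 1) ∧
    unary (red σ M (code n L)) = code (M * (n + M) ^ M) L' ∧
    ∀ c, c ∈ L' ↔ ∃ (s : Option (Fin σ.m)) (y : Fin (arP σ M s) → Fin (n + M))
      (t : Fin (arP σ M s) → Fin (arP σ M s)), relP (pls (strOf σ n L) M) M s y ∧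
      (∀ a b, y a ≤ y b ↔ t a ≤ t b) ∧ c = rw' σ M n s y t := by
  obtain ⟨A, hM, h0, h1, h2, h3, h4⟩ := ph_vals (n := n) hL
  have hV : cV.tv A [] := by
    simp only [cV, tv_and, tv_le, tv_eq, Ex.val, h0, h3]
    exact ⟨le_rfl, trivial⟩
  refine ⟨(pA σ M).out A [], ?_, ?_, mem_pA hL hM⟩
  · intro c hc
    obtain ⟨s, y, t, -, -, rfl⟩ := (mem_pA hL hM c).1 hc
    exact rowG_length _ _ _ _
  · unfold red pT
    rw [hM, Cd.ite_out, if_pos hV, code_eq]
    simp only [Lg.out, Wg.toLg_out, powE_val, eB, eN, Ex.val, h2, List.singleton_append]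

omit hL

theorem strOf_rows {L' : List (List ℕ)} (hL' : ∀ c, c ∈ L' ↔ ∃ (s : Option (Fin σ.m))
      (y : Fin (arP σ M s) → Fin (n + M)) (t : Fin (arP σ M s) → Fin (arP σ M s)),
      relP (pls (strOf σ n L) M) M s y ∧ (∀ a b, y a ≤ y b ↔ t a ≤ t b) ∧
        c = rw' σ M n s y t) (s : Sym σ M) (x : (rT σ M).Ar s → Fin (M * (n + M) ^ M)) :
    strOf (sigOf (Sym σ M) (fun s => Ps M (arP σ M s.1)))
        (M * (n + M) ^ M) L' ((cvT σ M).e s) (x ∘ ((cvT σ M).a s).symm) ↔
      ∃ y : Fin (arP σ M s.1) → Fin (n + M), relP (pls (strOf σ n L) M) M s.1 y ∧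
        (∀ a b, y a ≤ y b ↔ s.2 a ≤ s.2 b) ∧
        ∀ p, entN (n + M) M (fun a => (y a : ℕ)) p = (x p : ℕ) := by
  have h1 : strOf (sigOf (Sym σ M) (fun s => Ps M (arP σ M s.1)))
        (M * (n + M) ^ M) L' ((cvT σ M).e s) (x ∘ ((cvT σ M).a s).symm) ↔
      ∃ c ∈ L', c.getD 0 0 = ((cvT σ M).e s : ℕ) ∧
        ∀ i : Fin ((sigOf (Sym σ M) (fun s => Ps M (arP σ M s.1))).ar
          ((cvT σ M).e s)), c.getD (i + 1) 0 = ((x ∘ ((cvT σ M).a s).symm) i : ℕ) := Iff.rfl
  rw [h1]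
  constructor
  · rintro ⟨c, hc, h2⟩
    obtain ⟨s', y, t, hr, ho, rfl⟩ := (hL' c).1 hc
    have h2' : (rowG (cvT σ M) id (⟨s', t⟩ : Sym σ M)
        (entN (n + M) M (fun a => (y a : ℕ)))).getD 0 0 =
          ((cvT σ M).e s : ℕ) ∧
        ∀ i : Fin ((sigOf (Sym σ M) (fun s => Ps M (arP σ M s.1))).ar
          ((cvT σ M).e s)), (rowG (cvT σ M) id (⟨s', t⟩ : Sym σ M)
        (entN (n + M) M (fun a => (y a : ℕ)))).getD (i + 1) 0 =
          (fun i => ((x ∘ ((cvT σ M).a s).symm) i : ℕ)) i := h2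
    obtain ⟨h3, h4⟩ := (rowG_mem (cvT σ M) (s := (⟨s', t⟩ : Sym σ M)) (s' := s)).1 h2'
    subst h3
    refine ⟨y, hr, ho, fun p => ?_⟩
    have h5 := h4 p
    simp only [comp_apply, Equiv.symm_apply_apply] at h5
    exact h5
  · rintro ⟨y, hr, ho, h2⟩
    refine ⟨rw' σ M n s.1 y s.2, (hL' _).2 ⟨s.1, y, s.2, hr, ho, rfl⟩, ?_⟩
    have h3 := (rowG_mem (cvT σ M) (s := s) (s' := s)
      (F := entN (n + M) M (fun a => (y a : ℕ)))
      (x := fun i => ((x ∘ ((cvT σ M).a s).symm) i : ℕ))).2 ⟨rfl, fun p => ?_⟩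
    · exact h3
    · simp only [comp_apply, Equiv.symm_apply_apply]
      exact h2 p

end prog

theorem hom_iff {σ τ : Sig} {M n : ℕ} {V : Type} [LinearOrder V] (𝔸 : Str σ V) (𝔹 : Str τ V)
    (hM : 1 ≤ M) {Ls L' : List (List ℕ)} (hL' : ∀ c, c ∈ L' ↔ ∃ (s : Option (Fin σ.m))
      (y : Fin (arP σ M s) → Fin (n + M)) (t : Fin (arP σ M s) → Fin (arP σ M s)),
      relP (pls (strOf σ n Ls) M) M s y ∧ (∀ a b, y a ≤ y b ↔ t a ≤ t b) ∧
        c = rw' σ M n s y t) :
    (∃ q : (j : Fin M) → (Fin (j + 1) → Fin (n + M)) → Dm τ M,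
      ∀ (s : Option (Fin σ.m)) (y : Fin (arP σ M s) → Fin (n + M))
        (t : Fin (arP σ M s) → Fin (arP σ M s)), relP (pls (strOf σ n Ls) M) M s y →
        (∀ a b, y a ≤ y b ↔ t a ≤ t b) →
        ∃ x : Fin (arP σ M s) → V, relP 𝔸 M s x ∧ (∀ a b, t a = t b → x a = x b) ∧
          ∀ (j : Fin M) (α : Fin (j + 1) → Fin (arP σ M s)), StrictMono (fun i => t (α i)) →
            q j (fun i => y (α i)) = ⟨j, spl 𝔹 (fun i => x (α i))⟩) ↔
    ∃ f : Fin (M * (n + M) ^ M) → Dm τ M,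
      IsHom (strOf (sigOf (Sym σ M) (fun s => Ps M (arP σ M s.1)))
        (M * (n + M) ^ M) L') (tmpl 𝔸 𝔹 M) f := by
  have hT : Corr (cvT σ M) (fun s (q : (rT σ M).Ar s → Dm τ M) =>
      ∃ x : Fin (arP σ M s.1) → V, relP 𝔸 M s.1 x ∧
      (∀ a b, s.2 a = s.2 b → x a = x b) ∧
      ∀ (j : Fin M) (α : Fin (j + 1) → Fin (arP σ M s.1)), StrictMono (fun i => s.2 (α i)) →
        q ⟨j, α⟩ = ⟨j, spl 𝔹 (fun i => x (α i))⟩) (tmpl 𝔸 𝔹 M) := strOn_corr _
  constructor
  · rintro ⟨q, hq⟩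
    refine ⟨Function.extend cd (fun p => q p.1 p.2) (fun _ => ⟨⟨0, hM⟩, fun _ _ => False⟩), ?_⟩
    intro l x hx
    obtain ⟨s, rfl⟩ := (cvT σ M).e.surjective l
    have e1 : x = (x ∘ (cvT σ M).a s) ∘ ((cvT σ M).a s).symm := by
      funext i
      simp
    rw [e1] at hx
    obtain ⟨y, hr, ho, he⟩ := (strOf_rows hL' s _).1 hx
    refine (hT s _).2 ?_
    obtain ⟨w, w1, w2, w3⟩ := hq s.1 y s.2 hr ho
    refine ⟨w, w1, w2, fun j α hα => ?_⟩
    rw [← w3 j α hα]
    have e2 : x ((cvT σ M).a s ⟨j, α⟩) = cd ⟨j, fun i => y (α i)⟩ := by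
      apply Fin.ext
      rw [← entN_eq y ⟨j, α⟩]
      exact (he ⟨j, α⟩).symm
    simp only [comp_apply]
    rw [e2, cd_inj.extend_apply]
  · rintro ⟨f, hf⟩
    refine ⟨fun j z => f (cd ⟨j, z⟩), ?_⟩
    intro s y t hr ho
    have h1 := (strOf_rows hL' (⟨s, t⟩ : Sym σ M)
      (fun p => cd ⟨p.1, fun i => y (p.2 i)⟩)).2 ⟨y, hr, ho, fun p => entN_eq y p⟩
    obtain ⟨w, w1, w2, w3⟩ := (hT (⟨s, t⟩ : Sym σ M) _).1 (hf _ _ h1)
    refine ⟨w, w1, w2, fun j α hα => ?_⟩
    rw [← w3 j α hα]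
    have e3 : ((cvT σ M).a (⟨s, t⟩ : Sym σ M)).symm
        (((cvT σ M).a (⟨s, t⟩ : Sym σ M)) ⟨j, α⟩) = ⟨j, α⟩ := Equiv.symm_apply_apply _ _
    exact (congrArg (fun p : Ps M (arP σ M s) => f (cd ⟨p.1, fun i => y (p.2 i)⟩)) e3).symm

theorem pf_RED (h1 : T_RE1) : T_RED := by
  intro σ τ V _ 𝔸 𝔹 M hS
  refine manyOne (polyOn_red (σ := σ) (M := M))
    (Q := fun l => CSP (tmpl 𝔸 𝔹 M) (unary l) = true) (fun p => Iff.rfl) (fun x => ?_)
  by_cases h : cV.tv (ph (σ.width + 1) x) []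
  · obtain ⟨n, Ls, e1, rfl⟩ := code_of_cV h
    obtain ⟨L', e2, e3, e4⟩ := red_code (M := M) (n := n) e1
    rw [csp_code 𝔸 e1, e3, csp_code (tmpl 𝔸 𝔹 M) e2,
      h1 σ τ V 𝔸 𝔹 M hS n (strOf σ n Ls)]
    exact hom_iff 𝔸 𝔹 hS.pos e4
  · constructor
    · intro hx
      obtain ⟨n, Ls, h1, rfl⟩ := csp_true 𝔸 hx
      obtain ⟨M', hM, h0, -, -, h3, -⟩ := ph_vals (n := n) h1
      refine absurd ?_ h
      rw [hM]
      simp only [cV, tv_and, tv_le, tv_eq, Ex.val, h0, h3]
      exact ⟨le_rfl, trivial⟩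
    · intro hx
      rw [red_bad h] at hx
      exact absurd hx (csp_nil _)

end Pool.Agent.H3.GR.RED
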